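import Pool.Agent.MP_b811f7_nt.Assemble

set_option autoImplicit false

namespace Pool.Agent.Results.MP_b811f7_nt.Counterexample

open Pool.Agent.MP_b811f7_nt

/-- There are a global function field `K` with full constant field `𝔽₃` (so `q - 1 = 2`), a place `v`
of `K`, a sign function `σ` at `v` and a set `S` of representatives of the nonzero elements of the
residue field modulo `𝔽₃ˣ`, such that the Goss zeta value at `-17` of the ring `A` of elements of `K`
regular away from `v` is zero, although `17` is not divisible by `q - 1`.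

Here `K = 𝔽₃(x, y)` with `y ^ 3 - y = (x ^ 3 - x ^ 2 + 1) / (x ^ 3 - x + 1)` and `v` is the place of
degree `15` above `x ^ 5 - x + 1`. -/
theorem result : ∃ (K : Type) (_ : Field K) (_ : Algebra (ZMod 3) K)
    (v : Valuation K (WithZero (Multiplicative ℤ))) (σ : SignFunction v) (S : Set (Res v)ˣ),
    IsFunctionFieldOver (ZMod 3) K ∧ Function.Surjective v ∧ Finite (Res v) ∧
    IsRepresentatives (ZMod 3) σ S ∧
    (∀ n, (positive σ S n).Finite) ∧ (∃ N, ∀ n, N ≤ n → powerSum σ S 17 n = 0) ∧
    ¬ (Fintype.card (ZMod 3) - 1) ∣ 17 ∧ zetaValue σ S 17 = 0 := by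
  obtain ⟨v, σ, S, hv, hfin, hS, hz⟩ := counterexample
  refine ⟨KK, inferInstance, inferInstance, v, σ, S, function_field_KK, hv, hfin, hS,
    positive_finite function_field_KK hv σ S, powerSum_eventually_zero function_field_KK hv σ S 17, ?_, hz⟩
  rw [ZMod.card]
  norm_num

end Pool.Agent.Results.MP_b811f7_nt.Counterexample
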