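import Mathlib

set_option autoImplicit false

namespace Pool.Agent.Results.MP_b811f7_nt.DegreeOne

open Polynomial

/-- `K` is a global function field whose full field of constants is the finite field `F`. -/
structure IsFunctionFieldOver (F K : Type*) [Field F] [Field K] [Algebra F K] : Prop where
  /-- `K` is a finite extension of a rational function field `F(t)`. -/
  finite_over : ∃ t : K, Transcendental F t ∧ FiniteDimensional (IntermediateField.adjoin F {t}) K
  /-- every element of `K` algebraic over `F` is a constant. -/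
  full : ∀ x : K, IsAlgebraic F x → ∃ c : F, algebraMap F K c = x

section Defs

variable {K : Type*} [Field K]

/-- The ring `A` of elements of `K` which are regular at every place other than `v`.
The places of `K` are its valuation subrings different from `K`. -/
def regularRing (v : Valuation K (WithZero (Multiplicative ℤ))) : Subring K where
  carrier := {x | ∀ O : ValuationSubring K, O ≠ ⊤ → O ≠ v.valuationSubring → x ∈ O}
  mul_mem' := fun ha hb O h1 h2 => O.mul_mem _ _ (ha O h1 h2) (hb O h1 h2)
  one_mem' := fun O _ _ => O.one_mem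
  add_mem' := fun ha hb O h1 h2 => O.add_mem _ _ (ha O h1 h2) (hb O h1 h2)
  zero_mem' := fun O _ _ => O.zero_mem
  neg_mem' := fun ha O h1 h2 => O.neg_mem _ (ha O h1 h2)

/-- The residue field at the place `v`. -/
abbrev Res (v : Valuation K (WithZero (Multiplicative ℤ))) : Type _ :=
  IsLocalRing.ResidueField v.valuationSubring

/-- A sign function at `v`: a homomorphism from the nonzero elements of `K` to the nonzero elements
of the residue field which on units of the valuation ring is reduction. -/
structure SignFunction (v : Valuation K (WithZero (Multiplicative ℤ))) where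
  sgn : Kˣ →* (Res v)ˣ
  sgn_unit : ∀ (u : Kˣ) (h : (u : K) ∈ v.valuationSubring), v (u : K) = 1 →
    ((sgn u : (Res v)ˣ) : Res v) = IsLocalRing.residue v.valuationSubring ⟨(u : K), h⟩

/-- `S` is a set of representatives of the nonzero elements of the residue field modulo the
nonzero constants. -/
def IsRepresentatives (F : Type*) [Field F] [Algebra F K]
    {v : Valuation K (WithZero (Multiplicative ℤ))} (σ : SignFunction v) (S : Set (Res v)ˣ) : Prop :=
  ∀ y : (Res v)ˣ, ∃! s : (Res v)ˣ, s ∈ S ∧
    ∃ c : Fˣ, y = σ.sgn (Units.map (algebraMap F K : F →* K) c) * s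

/-- The positive elements of `A` whose pole at `v` has order `n`. -/
def positive {v : Valuation K (WithZero (Multiplicative ℤ))} (σ : SignFunction v) (S : Set (Res v)ˣ)
    (n : ℕ) : Set K :=
  {a | a ∈ regularRing v ∧ v a = WithZero.exp (n : ℤ) ∧ ∃ h : a ≠ 0, σ.sgn (Units.mk0 a h) ∈ S}

/-- The power sum of the positive elements with pole order `n`. -/
noncomputable def powerSum {v : Valuation K (WithZero (Multiplicative ℤ))} (σ : SignFunction v)
    (S : Set (Res v)ˣ) (k n : ℕ) : K :=
  ∑ᶠ a ∈ positive σ S n, a ^ k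

/-- The Goss zeta value of `A` at `-k`. -/
noncomputable def zetaValue {v : Valuation K (WithZero (Multiplicative ℤ))} (σ : SignFunction v)
    (S : Set (Res v)ˣ) (k : ℕ) : K :=
  ∑ᶠ n : ℕ, powerSum σ S k n

end Defs

section Basic

variable {F K : Type*} [Field F] [Fintype F] [Field K] [Algebra F K]

lemma const_mem (O : ValuationSubring K) (c : F) : algebraMap F K c ∈ O := by
  rcases eq_or_ne c 0 with rfl | hc
  · rw [map_zero]; exact O.zero_mem
  rcases O.mem_or_inv_mem (algebraMap F K c) with h | h
  · exact h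
  · have h2 : algebraMap F K c = (algebraMap F K c)⁻¹ ^ (Fintype.card F - 2) := by
      have h3 : 2 ≤ Fintype.card F := by
        have := Fintype.one_lt_card (α := F)
        omega
      have h4 : c ^ (Fintype.card F - 2) * c = 1 := by
        rw [← pow_succ, show Fintype.card F - 2 + 1 = Fintype.card F - 1 by omega]
        exact FiniteField.pow_card_sub_one_eq_one c hc
      rw [← map_inv₀, ← map_pow]
      congr 1
      rw [inv_pow]
      exact eq_inv_of_mul_eq_one_right h4
    rw [h2]
    exact pow_mem h _

lemma const_mem_A (v : Valuation K (WithZero (Multiplicative ℤ))) (c : F) :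
    algebraMap F K c ∈ regularRing v := fun O _ _ => const_mem O c

lemma v_const (v : Valuation K (WithZero (Multiplicative ℤ))) {c : F} (hc : c ≠ 0) :
    v (algebraMap F K c) = 1 := by
  have h1 : v (algebraMap F K c) ≤ 1 := const_mem v.valuationSubring c
  have h2 : v (algebraMap F K c⁻¹) ≤ 1 := const_mem v.valuationSubring c⁻¹
  have h3 : v (algebraMap F K c) * v (algebraMap F K c⁻¹) = 1 := by
    rw [← map_mul, ← map_mul, mul_inv_cancel₀ hc, map_one, map_one]
  apply le_antisymm h1
  by_contra hlt
  rw [not_le] at hlt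
  have : v (algebraMap F K c) * v (algebraMap F K c⁻¹) < 1 := by
    calc v (algebraMap F K c) * v (algebraMap F K c⁻¹) ≤ v (algebraMap F K c) * 1 := by
          gcongr
      _ < 1 := by rwa [mul_one]
  exact absurd h3 this.ne

/-- Elements regular everywhere are constants. -/
lemma const_of_regular {F K : Type*} [Field F] [Field K] [Algebra F K] (hK : IsFunctionFieldOver F K) (v : Valuation K (WithZero (Multiplicative ℤ)))
    {x : K} (hx : x ∈ regularRing v) (hv : v x ≤ 1) : ∃ c : F, algebraMap F K c = x := by
  apply hK.full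
  have h1 : x ∈ (⨅ V : {V : ValuationSubring K // (∅ : Set K) ⊆ V.toSubring}, V.1.toSubring) := by
    rw [Subring.mem_iInf]
    intro V
    by_cases h1 : V.1 = ⊤
    · rw [h1]; trivial
    by_cases h2 : V.1 = v.valuationSubring
    · rw [h2]; exact hv
    · exact hx V.1 h1 h2
  rw [iInf_valuationSubring_superset] at h1
  have h2 : IsIntegral (Subring.closure (∅ : Set K)) x := h1
  have h3 : IsIntegral F x := by
    obtain ⟨p, hp, hpx⟩ := h2
    have hle : Subring.closure (∅ : Set K) ≤ (algebraMap F K).range := by
      rw [Subring.closure_le]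
      exact Set.empty_subset _
    have hr : IsIntegral (algebraMap F K).range x := by
      refine ⟨p.map (Subring.inclusion hle), hp.map _, ?_⟩
      rw [Polynomial.eval₂_map]
      exact hpx
    obtain ⟨p, hp, hpx⟩ := hr
    let e : F ≃+* (algebraMap F K).range := RingEquiv.ofBijective (algebraMap F K).rangeRestrict
      ⟨fun a b h => (algebraMap F K).injective (congrArg Subtype.val h), (algebraMap F K).rangeRestrict_surjective⟩
    refine ⟨p.map (e.symm : (algebraMap F K).range →+* F), hp.map _, ?_⟩
    rw [Polynomial.eval₂_map]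
    have : (algebraMap F K).comp (e.symm : (algebraMap F K).range →+* F) = algebraMap (algebraMap F K).range K := by
      ext y
      have := e.apply_symm_apply y
      exact congrArg Subtype.val this
    rw [this]
    exact hpx
  exact h3.isAlgebraic

lemma sum_invariant {M : Type*} [AddCommMonoid M] (N : AddSubgroup K) [Fintype N] (P : Finset K)
    (hP : ∀ a ∈ P, ∀ b ∈ N, a + b ∈ P) (g : K → M) (hg : ∀ a ∈ P, ∑ b : N, g (a + b) = 0) :
    ∑ a ∈ P, g a = 0 := by
  classical
  rw [← Finset.sum_fiberwise_of_maps_to (s := P) (t := P.image (QuotientAddGroup.mk : K → K ⧸ N))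
    (g := (QuotientAddGroup.mk : K → K ⧸ N)) (fun a ha => Finset.mem_image_of_mem _ ha)]
  apply Finset.sum_eq_zero
  intro y hy
  obtain ⟨a, ha, rfl⟩ := Finset.mem_image.mp hy
  rw [← hg a ha]
  symm
  refine Finset.sum_bij (fun b _ => a + (b : K)) ?_ ?_ ?_ ?_
  · intro b _
    rw [Finset.mem_filter]
    refine ⟨hP a ha b b.2, ?_⟩
    symm
    rw [QuotientAddGroup.eq]
    simp
  · intro b _ c _ h
    exact Subtype.ext (add_left_cancel h)
  · intro c hc
    rw [Finset.mem_filter] at hc
    have h := hc.2.symm
    rw [QuotientAddGroup.eq] at h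
    exact ⟨⟨-a + c, h⟩, Finset.mem_univ _, by simp⟩
  · intro b _
    rfl

lemma sum_affine_pow (r : ℕ) (b : Fin r → K) (k : ℕ) (a : K) (h : k < r * (Fintype.card F - 1)) :
    ∑ c : Fin r → F, (a + ∑ i, algebraMap F K (c i) * b i) ^ k = 0 := by
  induction r generalizing k a with
  | zero => omega
  | succ r ih =>
    rw [← (Fin.consEquiv (fun _ : Fin (r + 1) => F)).sum_comp, Fintype.sum_prod_type_right]
    have h1 : ∀ (c : Fin r → F) (e : F),
        (a + ∑ i, algebraMap F K ((Fin.consEquiv (fun _ : Fin (r + 1) => F)) (e, c) i) * b i) ^ k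
          = ∑ j ∈ Finset.range (k + 1), algebraMap F K (e ^ j) * (b 0 ^ j * (k.choose j : K)
            * (a + ∑ i, algebraMap F K (c i) * b i.succ) ^ (k - j)) := by
      intro c e
      have h2 : (a + ∑ i, algebraMap F K ((Fin.consEquiv (fun _ : Fin (r + 1) => F)) (e, c) i) * b i)
          = algebraMap F K e * b 0 + (a + ∑ i, algebraMap F K (c i) * b i.succ) := by
        rw [Fin.sum_univ_succ]
        have h3 : (Fin.consEquiv (fun _ : Fin (r + 1) => F)) (e, c) 0 = e := rfl
        have h4 : ∀ i : Fin r, (Fin.consEquiv (fun _ : Fin (r + 1) => F)) (e, c) i.succ = c i := fun i => rfl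
        simp only [h3, h4]
        ring
      rw [h2, add_pow]
      refine Finset.sum_congr rfl (fun j _ => ?_)
      rw [map_pow, mul_pow]
      ring
    simp only [h1]
    rw [Finset.sum_congr rfl (fun c _ => Finset.sum_comm), Finset.sum_comm]
    apply Finset.sum_eq_zero
    intro j hj
    rw [Finset.mem_range] at hj
    rw [Finset.sum_comm]
    by_cases hjq : j < Fintype.card F - 1
    · rw [Finset.sum_comm]
      apply Finset.sum_eq_zero
      intro c _
      rw [← Finset.sum_mul, ← map_sum, FiniteField.sum_pow_lt_card_sub_one F j hjq, map_zero, zero_mul]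
    · apply Finset.sum_eq_zero
      intro e _
      rw [← Finset.mul_sum, ← Finset.mul_sum, ih (fun i => b i.succ) (k - j) a (by
        rw [Nat.succ_mul] at h
        omega)]
      ring

end Basic

section Level

variable {F K : Type*} [Field F] [Fintype F] [Field K] [Algebra F K]
  {v : Valuation K (WithZero (Multiplicative ℤ))}

lemma lt_exp_succ {x : WithZero (Multiplicative ℤ)} {n : ℤ} (h : x < WithZero.exp (n + 1)) :
    x ≤ WithZero.exp n := by
  rcases eq_or_ne x 0 with rfl | hx
  · exact zero_le
  · rw [← WithZero.log_lt_iff_lt_exp hx] at h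
    rw [← WithZero.log_le_iff_le_exp hx]
    omega

lemma res_eq_zero_iff {x : K} (h : x ∈ v.valuationSubring) :
    IsLocalRing.residue v.valuationSubring ⟨x, h⟩ = 0 ↔ v x < 1 := by
  rw [IsLocalRing.residue_eq_zero_iff, IsLocalRing.mem_maximalIdeal, mem_nonunits_iff]
  have hx : v x ≤ 1 := h
  constructor
  · intro hu
    rcases hx.lt_or_eq with h1 | h1
    · exact h1
    · exfalso
      apply hu
      have h2 : x ≠ 0 := by
        rintro rfl
        rw [map_zero] at h1
        exact zero_ne_one h1
      have h3 : x⁻¹ ∈ v.valuationSubring := by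
        change v x⁻¹ ≤ 1
        rw [map_inv₀, h1, inv_one]
      exact isUnit_iff_exists_inv.mpr ⟨⟨x⁻¹, h3⟩, Subtype.ext (mul_inv_cancel₀ h2)⟩
  · intro h1 hu
    obtain ⟨y, hy⟩ := isUnit_iff_exists_inv.mp hu
    have h2 : x * (y : K) = 1 := congrArg Subtype.val hy
    have h3 : v x * v (y : K) = 1 := by rw [← map_mul, h2, map_one]
    have h4 : v (y : K) ≤ 1 := y.2
    have h5 : v x * v (y : K) < 1 := by
      calc v x * v (y : K) ≤ v x * 1 := by gcongr
        _ < 1 := by rwa [mul_one]
    exact absurd h3 h5.ne

lemma level_finite (hK : IsFunctionFieldOver F K) (hv : Function.Surjective v) [Finite (Res v)] (n : ℕ) :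
    {a : K | a ∈ regularRing v ∧ v a ≤ WithZero.exp (n : ℤ)}.Finite := by
  classical
  obtain ⟨π, hπ⟩ := hv (WithZero.exp (-1))
  induction n with
  | zero =>
    refine (Set.finite_range (algebraMap F K)).subset ?_
    rintro a ⟨ha1, ha2⟩
    exact const_of_regular hK v ha1 (by simpa using ha2)
  | succ n ih =>
    set f : K → Res v := fun a => if h : a * π ^ (n + 1) ∈ v.valuationSubring then
      IsLocalRing.residue v.valuationSubring ⟨_, h⟩ else 0 with hf
    have hmem : ∀ a : K, v a ≤ WithZero.exp ((n + 1 : ℕ) : ℤ) → a * π ^ (n + 1) ∈ v.valuationSubring := by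
      intro a ha
      change v (a * π ^ (n + 1)) ≤ 1
      rw [map_mul, map_pow, hπ]
      calc v a * WithZero.exp (-1) ^ (n + 1) ≤ WithZero.exp ((n + 1 : ℕ) : ℤ) * WithZero.exp (-1) ^ (n + 1) := by
            gcongr
        _ = 1 := by
            rw [← WithZero.exp_nsmul, ← WithZero.exp_add]
            simp
    refine Set.Finite.of_finite_fibers f (Set.toFinite _) ?_
    rintro y ⟨a0, ha0, rfl⟩
    refine (ih.image (fun b => a0 + b)).subset ?_
    rintro a ⟨ha, hfa⟩
    refine ⟨a - a0, ⟨sub_mem ha.1 ha0.1, ?_⟩, by simp⟩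
    apply lt_exp_succ
    have h1 : f a = f a0 := hfa
    simp only [hf, dif_pos (hmem a ha.2), dif_pos (hmem a0 ha0.2)] at h1
    have h2 : v ((a - a0) * π ^ (n + 1)) < 1 := by
      have h6 : (a - a0) * π ^ (n + 1) ∈ v.valuationSubring := by
        rw [sub_mul]
        exact sub_mem (hmem a ha.2) (hmem a0 ha0.2)
      rw [← res_eq_zero_iff h6]
      have h7 : (⟨(a - a0) * π ^ (n + 1), h6⟩ : v.valuationSubring)
          = ⟨a * π ^ (n + 1), hmem a ha.2⟩ - ⟨a0 * π ^ (n + 1), hmem a0 ha0.2⟩ :=
        Subtype.ext (sub_mul _ _ _)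
      rw [h7, map_sub, h1, sub_self]
    rw [map_mul, map_pow, hπ] at h2
    have h3 : WithZero.exp (-1 : ℤ) ^ (n + 1) = WithZero.exp (-((n : ℤ) + 1)) := by
      rw [← WithZero.exp_nsmul]
      congr 1
      simp
    rw [h3] at h2
    have h4 := mul_lt_mul_of_pos_right h2 (WithZero.exp_pos (a := (n : ℤ) + 1))
    rwa [mul_assoc, ← WithZero.exp_add, neg_add_cancel, WithZero.exp_zero, mul_one, one_mul] at h4

lemma sgn_add (σ : SignFunction v) {a b : K} (ha : a ≠ 0) (hab : v b < v a) :
    ∃ h : a + b ≠ 0, σ.sgn (Units.mk0 (a + b) h) = σ.sgn (Units.mk0 a ha) := by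
  have hva : v a ≠ 0 := (Valuation.ne_zero_iff _).mpr ha
  have h0 : a + b ≠ 0 := by
    intro h
    have : v (a + b) = v a := Valuation.map_add_eq_of_lt_left v hab
    rw [h, map_zero] at this
    exact hva this.symm
  refine ⟨h0, ?_⟩
  have hba : v (b / a) < 1 := by
    rw [map_div₀]
    exact (div_lt_one₀ (zero_lt_iff.mpr hva)).mpr hab
  have h1 : (1 : K) + b / a ≠ 0 := by
    intro h
    have := Valuation.map_one_add_of_lt v hba
    rw [h, map_zero] at this
    exact zero_ne_one this
  have h2 : Units.mk0 (a + b) h0 = Units.mk0 a ha * Units.mk0 (1 + b / a) h1 := by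
    ext
    simp only [Units.val_mk0, Units.val_mul]
    field_simp
  have h3 : v (1 + b / a) = 1 := Valuation.map_one_add_of_lt v hba
  have h4 : ((Units.mk0 (1 + b / a) h1 : Kˣ) : K) ∈ v.valuationSubring := by
    change v (1 + b / a) ≤ 1
    rw [h3]
  have h5 := σ.sgn_unit (Units.mk0 (1 + b / a) h1) h4 h3
  have h6 : IsLocalRing.residue v.valuationSubring ⟨((Units.mk0 (1 + b / a) h1 : Kˣ) : K), h4⟩ = 1 := by
    have hb : b / a ∈ v.valuationSubring := hba.le
    have h7 : (⟨((Units.mk0 (1 + b / a) h1 : Kˣ) : K), h4⟩ : v.valuationSubring) = 1 + ⟨b / a, hb⟩ := rfl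
    rw [h7, map_add, map_one, (res_eq_zero_iff hb).mpr hba, add_zero]
  have h7 : σ.sgn (Units.mk0 (1 + b / a) h1) = 1 := by
    apply Units.ext
    rw [h5, h6, Units.val_one]
  rw [h2, map_mul, h7, mul_one]

lemma positive_add (σ : SignFunction v) (S : Set (Res v)ˣ) {n : ℕ} {a b : K}
    (ha : a ∈ positive σ S n) (hb : b ∈ regularRing v) (hab : v b < v a) : a + b ∈ positive σ S n := by
  obtain ⟨h1, h2, h3, h4⟩ := ha
  obtain ⟨h5, h6⟩ := sgn_add σ h3 hab
  refine ⟨add_mem h1 hb, ?_, h5, ?_⟩
  · rw [Valuation.map_add_eq_of_lt_left v hab, h2]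
  · rw [h6]
    exact h4

lemma positive_finite (hK : IsFunctionFieldOver F K) (hv : Function.Surjective v) [Finite (Res v)]
    (σ : SignFunction v) (S : Set (Res v)ˣ) (n : ℕ) : (positive σ S n).Finite :=
  (level_finite hK hv n).subset (fun _ ha => ⟨ha.1, ha.2.1.le⟩)

lemma sgn_const_inj (σ : SignFunction v) {c e : Fˣ}
    (h : σ.sgn (Units.map (algebraMap F K : F →* K) c) = σ.sgn (Units.map (algebraMap F K : F →* K) e)) :
    c = e := by
  have key : ∀ c : Fˣ, ((σ.sgn (Units.map (algebraMap F K : F →* K) c) : (Res v)ˣ) : Res v)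
      = IsLocalRing.residue v.valuationSubring ⟨algebraMap F K c, const_mem _ _⟩ := by
    intro c
    exact σ.sgn_unit _ (const_mem _ _) (v_const v c.ne_zero)
  have h1 := key c
  rw [h, key e, ← sub_eq_zero, ← map_sub] at h1
  have h2 : (⟨algebraMap F K (e : F), const_mem _ _⟩ - ⟨algebraMap F K (c : F), const_mem _ _⟩ : v.valuationSubring)
      = ⟨algebraMap F K (e - c), const_mem _ _⟩ := Subtype.ext (map_sub (algebraMap F K) _ _).symm
  rw [h2, res_eq_zero_iff] at h1
  by_contra hne
  have h3 : (e : F) - c ≠ 0 := by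
    intro h4
    exact hne (Units.ext (sub_eq_zero.mp h4)).symm
  rw [v_const v h3] at h1
  exact lt_irrefl _ h1

/-- All power sums from some point on vanish. -/
lemma powerSum_eventually_zero (hK : IsFunctionFieldOver F K) (hv : Function.Surjective v) [Finite (Res v)]
    (σ : SignFunction v) (S : Set (Res v)ˣ) (k : ℕ) : ∃ N, ∀ n, N ≤ n → powerSum σ S k n = 0 := by
  classical
  by_cases hx : ∃ x ∈ regularRing v, 1 < v x
  · obtain ⟨x, hxA, hx1⟩ := hx
    have hx0 : x ≠ 0 := by
      rintro rfl
      rw [map_zero] at hx1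
      exact absurd hx1 (not_lt.mpr zero_le)
    have hvx : v x ≠ 0 := (Valuation.ne_zero_iff _).mpr hx0
    obtain ⟨m, hm⟩ : ∃ m : ℕ, v x = WithZero.exp (m : ℤ) := by
      refine ⟨(WithZero.log (v x)).toNat, ?_⟩
      have h1 : 0 < WithZero.log (v x) := by
        rw [WithZero.lt_log_iff_exp_lt hvx, WithZero.exp_zero]
        exact hx1
      rw [Int.toNat_of_nonneg h1.le, WithZero.exp_log hvx]
    have hm0 : 0 < m := by
      rw [hm, ← WithZero.exp_zero, WithZero.exp_lt_exp] at hx1
      exact_mod_cast hx1
    -- independent powers of x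
    set r := k + 1 with hr
    have hq : 1 ≤ Fintype.card F - 1 := by
      have := Fintype.one_lt_card (α := F)
      omega
    set φ : (Fin r → F) → K := fun c => ∑ i, algebraMap F K (c i) * x ^ (i : ℕ) with hφ
    have hval : ∀ (r' : ℕ) (c : Fin r' → F), v (∑ i, algebraMap F K (c i) * x ^ (i : ℕ)) ≤ WithZero.exp ((m * (r' - 1) : ℕ) : ℤ) := by
      intro r' c
      apply Valuation.map_sum_le
      intro i _
      rcases eq_or_ne (c i) 0 with h | h
      · rw [h, map_zero, zero_mul, map_zero]
        exact zero_le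
      · rw [map_mul, v_const v h, one_mul, map_pow, hm, ← WithZero.exp_nsmul, WithZero.exp_le_exp]
        have h1 : (i : ℕ) ≤ r' - 1 := by omega
        have h2 : (i : ℕ) * m ≤ m * (r' - 1) := by
          rw [mul_comm]
          exact Nat.mul_le_mul_left m h1
        rw [nsmul_eq_mul]
        exact_mod_cast h2
    have hinj0 : ∀ (r' : ℕ) (c : Fin r' → F), ∑ i, algebraMap F K (c i) * x ^ (i : ℕ) = 0 → c = 0 := by
      intro r'
      induction r' with
      | zero =>
        intro c _
        exact Subsingleton.elim _ _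
      | succ r' ih =>
        intro c hc
        rw [Fin.sum_univ_castSucc] at hc
        have hlast : c (Fin.last r') = 0 := by
          by_contra hne
          rcases Nat.eq_zero_or_pos r' with h0 | h0
          · subst h0
            simp at hc
            exact hne hc
          have h1 : v (algebraMap F K (c (Fin.last r')) * x ^ ((Fin.last r' : Fin (r' + 1)) : ℕ))
              = WithZero.exp ((m * r' : ℕ) : ℤ) := by
            rw [map_mul, v_const v hne, one_mul, map_pow, hm, ← WithZero.exp_nsmul]
            congr 1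
            simp [mul_comm]
          have h2 := hval r' (fun i => c i.castSucc)
          have h3 : ∑ i : Fin r', algebraMap F K (c i.castSucc) * x ^ ((i.castSucc : Fin (r' + 1)) : ℕ)
              = - (algebraMap F K (c (Fin.last r')) * x ^ ((Fin.last r' : Fin (r' + 1)) : ℕ)) :=
            eq_neg_of_add_eq_zero_left hc
          have h4 : v (∑ i : Fin r', algebraMap F K (c i.castSucc) * x ^ ((i.castSucc : Fin (r' + 1)) : ℕ))
              = WithZero.exp ((m * r' : ℕ) : ℤ) := by
            rw [h3, Valuation.map_neg, h1]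
          have h5 : (WithZero.exp ((m * r' : ℕ) : ℤ) : WithZero (Multiplicative ℤ)) ≤ WithZero.exp ((m * (r' - 1) : ℕ) : ℤ) := by
            rw [← h4]
            exact h2
          rw [WithZero.exp_le_exp] at h5
          have h6 : m * r' ≤ m * (r' - 1) := by exact_mod_cast h5
          have h7 := Nat.le_of_mul_le_mul_left h6 hm0
          omega
        rw [hlast, map_zero, zero_mul, add_zero] at hc
        have h8 := ih (fun i => c i.castSucc) hc
        funext i
        refine Fin.lastCases ?_ (fun j => ?_) i
        · exact hlast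
        · exact congrFun h8 j
    have hφadd : ∀ c e, φ (c + e) = φ c + φ e := by
      intro c e
      simp only [hφ, Pi.add_apply, map_add, add_mul, Finset.sum_add_distrib]
    let Φ : (Fin r → F) →+ K := AddMonoidHom.mk' φ hφadd
    have hΦinj : Function.Injective Φ := by
      rw [injective_iff_map_eq_zero]
      exact fun c hc => hinj0 r c hc
    let N : AddSubgroup K := Φ.range
    have : Finite N := Set.finite_range Φ
    have : Fintype N := Fintype.ofFinite _
    refine ⟨m * r + 1, fun n hn => ?_⟩
    rw [powerSum, finsum_mem_eq_finite_toFinset_sum _ (positive_finite hK hv σ S n)]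
    apply sum_invariant N
    · intro a ha b hb
      rw [Set.Finite.mem_toFinset] at *
      obtain ⟨c, rfl⟩ := hb
      apply positive_add σ S ha
      · change φ c ∈ regularRing v
        exact sum_mem (fun i _ => mul_mem (const_mem_A v _) (pow_mem hxA _))
      · rw [ha.2.1]
        refine lt_of_le_of_lt (hval r c) ?_
        rw [WithZero.exp_lt_exp]
        have h1 : m * (r - 1) ≤ m * r := Nat.mul_le_mul_left m (by omega)
        have h2 : m * (r - 1) < n := by omega
        exact_mod_cast h2
    · intro a _
      have h1 : ∑ b : N, (a + (b : K)) ^ k = ∑ c : Fin r → F, (a + φ c) ^ k := by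
        symm
        refine Fintype.sum_bijective (fun c => (⟨Φ c, ⟨c, rfl⟩⟩ : N)) ⟨?_, ?_⟩ _ _ (fun c => rfl)
        · intro c e h
          exact hΦinj (congrArg Subtype.val h)
        · rintro ⟨_, c, rfl⟩
          exact ⟨c, rfl⟩
      rw [h1]
      apply sum_affine_pow
      have h2 : r * 1 ≤ r * (Fintype.card F - 1) := Nat.mul_le_mul_left r hq
      omega
  · push Not at hx
    refine ⟨1, fun n hn => ?_⟩
    have : positive σ S n = ∅ := by
      rw [Set.eq_empty_iff_forall_notMem]
      rintro a ⟨h1, h2, _⟩
      have h3 := hx a h1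
      rw [h2, ← WithZero.exp_zero, WithZero.exp_le_exp] at h3
      have h4 : n ≤ 0 := by exact_mod_cast h3
      omega
    rw [powerSum, this, finsum_mem_empty]

lemma powerSum_zero (hK : IsFunctionFieldOver F K) (σ : SignFunction v) (S : Set (Res v)ˣ)
    (hS : IsRepresentatives F σ S) (k : ℕ) :
    ∃ c : F, c ≠ 0 ∧ powerSum σ S k 0 = algebraMap F K c ^ k := by
  obtain ⟨s, ⟨hs, c, hc⟩, huniq⟩ := hS 1
  have hsc : s = σ.sgn (Units.map (algebraMap F K : F →* K) c⁻¹) := by
    rw [map_inv, map_inv]
    exact eq_inv_of_mul_eq_one_right hc.symm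
  refine ⟨((c⁻¹ : Fˣ) : F), (c⁻¹).ne_zero, ?_⟩
  have hset : positive σ S 0 = {algebraMap F K ((c⁻¹ : Fˣ) : F)} := by
    apply Set.eq_singleton_iff_unique_mem.mpr
    have h0 : algebraMap F K ((c⁻¹ : Fˣ) : F) ≠ 0 := (_root_.map_ne_zero _).mpr (c⁻¹).ne_zero
    have hu : Units.mk0 _ h0 = Units.map (algebraMap F K : F →* K) c⁻¹ := Units.ext rfl
    refine ⟨⟨const_mem_A v _, ?_, h0, ?_⟩, ?_⟩
    · rw [v_const v (c⁻¹).ne_zero]
      simp
    · rw [hu, ← hsc]
      exact hs
    · rintro a ⟨ha1, ha2, ha3, ha4⟩
      obtain ⟨e, rfl⟩ := const_of_regular hK v ha1 (by rw [ha2]; simp)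
      have he : e ≠ 0 := by
        rintro rfl
        exact ha3 (map_zero _)
      have h1 : Units.mk0 (algebraMap F K e) ha3 = Units.map (algebraMap F K : F →* K) (Units.mk0 e he) :=
        Units.ext rfl
      have h2 := huniq (σ.sgn (Units.mk0 (algebraMap F K e) ha3)) ⟨ha4, (Units.mk0 e he)⁻¹, by
        rw [h1, map_inv, map_inv, inv_mul_cancel]⟩
      rw [h1, hsc] at h2
      have h3 := sgn_const_inj σ h2
      rw [← h3]
      rfl
  rw [powerSum, hset, finsum_mem_singleton]

lemma zeta_eq_sum (hK : IsFunctionFieldOver F K) (hv : Function.Surjective v) [Finite (Res v)]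
    (σ : SignFunction v) (S : Set (Res v)ˣ) (k : ℕ) :
    ∃ N, zetaValue σ S k = powerSum σ S k 0 + ∑ n ∈ Finset.range N, powerSum σ S k (n + 1) := by
  obtain ⟨N, hN⟩ := powerSum_eventually_zero hK hv σ S k
  refine ⟨N, ?_⟩
  rw [zetaValue, finsum_eq_sum_of_support_subset (s := Finset.range (N + 1)), Finset.sum_range_succ', add_comm]
  intro n hn
  rw [Function.mem_support] at hn
  simp only [Finset.coe_range, Set.mem_Iio]
  by_contra h
  exact hn (hN n (by omega))

lemma sum_pow_odd {k : ℕ} (hk : ¬ (Fintype.card F - 1) ∣ k) : ∑ c : F, c ^ k = 0 := by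
  have hq : 1 < Fintype.card F := Fintype.one_lt_card
  have hr0 : k % (Fintype.card F - 1) ≠ 0 := fun h => hk (Nat.dvd_of_mod_eq_zero h)
  have hr1 : k % (Fintype.card F - 1) < Fintype.card F - 1 := Nat.mod_lt _ (by omega)
  rw [← FiniteField.sum_pow_lt_card_sub_one F _ hr1]
  refine Finset.sum_congr rfl (fun c _ => ?_)
  rcases eq_or_ne c 0 with rfl | hc
  · rw [zero_pow hr0, zero_pow]
    rintro rfl
    exact hk (dvd_zero _)
  · conv_lhs => rw [← Nat.mod_add_div k (Fintype.card F - 1)]
    rw [pow_add, pow_mul, FiniteField.pow_card_sub_one_eq_one c hc, one_pow, mul_one]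

lemma zeta_ne_zero_of_minimal (hK : IsFunctionFieldOver F K) (hv : Function.Surjective v) [Finite (Res v)]
    (σ : SignFunction v) (S : Set (Res v)ˣ) (hS : IsRepresentatives F σ S)
    {x : K} (hxA : x ∈ regularRing v) (hx1 : 1 < v x)
    (hx : ∀ a ∈ regularRing v, v a ≤ v x → ∃ c e : F, a = algebraMap F K c + algebraMap F K e * x)
    {k : ℕ} (hk : ¬ (Fintype.card F - 1) ∣ k) : zetaValue σ S k ≠ 0 := by
  classical
  have hx0 : x ≠ 0 := by
    rintro rfl
    rw [map_zero] at hx1
    exact absurd hx1 (not_lt.mpr zero_le)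
  have hvx : v x ≠ 0 := (Valuation.ne_zero_iff _).mpr hx0
  -- x is not a unit of the ring
  have hnu : ¬ IsUnit (⟨x, hxA⟩ : regularRing v) := by
    intro hu
    obtain ⟨y, hy⟩ := isUnit_iff_exists_inv.mp hu
    have h1 : x * (y : K) = 1 := congrArg Subtype.val hy
    have h2 : v (y : K) < 1 := by
      have h3 : (y : K) = x⁻¹ := eq_inv_of_mul_eq_one_right h1
      rw [h3, map_inv₀]
      exact inv_lt_one_of_one_lt₀ hx1
    obtain ⟨c, hc⟩ := const_of_regular hK v y.2 h2.le
    rcases eq_or_ne c 0 with rfl | hc0
    · rw [map_zero] at hc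
      rw [← hc, mul_zero] at h1
      exact zero_ne_one h1
    · rw [← hc, v_const v hc0] at h2
      exact lt_irrefl _ h2
  obtain ⟨M, hM, hxM⟩ := exists_max_ideal_of_mem_nonunits (mem_nonunits_iff.mpr hnu)
  let π : regularRing v →+* (regularRing v ⧸ M) := Ideal.Quotient.mk M
  have hπx : π ⟨x, hxA⟩ = 0 := Ideal.Quotient.eq_zero_iff_mem.mpr hxM
  let ι : F →+* regularRing v := (algebraMap F K).codRestrict (regularRing v) (const_mem_A v)
  have hcard : ((Fintype.card F : ℕ) : regularRing v ⧸ M) = 0 := by
    have h1 : ((Fintype.card F : ℕ) : F) = 0 := FiniteField.cast_card_eq_zero F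
    have h2 : ((Fintype.card F : ℕ) : regularRing v ⧸ M) = π (ι ((Fintype.card F : ℕ) : F)) := by
      rw [map_natCast, map_natCast]
    rw [h2, h1, map_zero, map_zero]
  let g : K → regularRing v ⧸ M := fun a => if h : a ∈ regularRing v then π ⟨a, h⟩ ^ k else 0
  have hg : ∀ a : regularRing v, g a = π a ^ k := fun a => dif_pos a.2
  have key : ∀ n : ℕ, 1 ≤ n → ∀ y : regularRing v, (y : K) = powerSum σ S k n → π y = 0 := by
    intro n hn y hy
    rw [powerSum, finsum_mem_eq_finite_toFinset_sum _ (positive_finite hK hv σ S n)] at hy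
    set P := (positive_finite hK hv σ S n).toFinset with hPdef
    have hPA : ∀ a ∈ P, a ∈ regularRing v := by
      intro a ha
      rw [hPdef, Set.Finite.mem_toFinset] at ha
      exact ha.1
    have hy2 : y = ∑ a ∈ P.attach, (⟨a.1, hPA a.1 a.2⟩ : regularRing v) ^ k := by
      apply Subtype.ext
      rw [hy, AddSubmonoidClass.coe_finsetSum, ← Finset.sum_attach]
      rfl
    have hy3 : π y = ∑ a ∈ P, g a := by
      rw [hy2, map_sum, ← Finset.sum_attach P]
      refine Finset.sum_congr rfl (fun a _ => ?_)
      rw [map_pow]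
      exact (hg ⟨a.1, hPA a.1 a.2⟩).symm
    rw [hy3]
    rcases le_or_gt (WithZero.exp (n : ℤ)) (v x) with hle | hgt
    · -- translation by constants
      let N : AddSubgroup K := (algebraMap F K).toAddMonoidHom.range
      have hNfin : Finite N := Set.finite_range (algebraMap F K)
      have : Fintype N := Fintype.ofFinite _
      apply sum_invariant N
      · intro a ha b hb
        rw [hPdef, Set.Finite.mem_toFinset] at *
        obtain ⟨c, rfl⟩ := hb
        apply positive_add σ S ha (const_mem_A v c)
        rw [ha.2.1]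
        have h1 : v (algebraMap F K c) ≤ 1 := const_mem v.valuationSubring c
        refine lt_of_le_of_lt h1 ?_
        rw [← WithZero.exp_zero, WithZero.exp_lt_exp]
        exact_mod_cast hn
      · intro a ha
        rw [hPdef, Set.Finite.mem_toFinset] at ha
        obtain ⟨c, e, hce⟩ := hx a ha.1 (by rw [ha.2.1]; exact hle)
        have h1 : ∑ b : N, g (a + (b : K)) = ∑ c' : F, g (a + algebraMap F K c') := by
          symm
          refine Fintype.sum_bijective (fun c' => (⟨algebraMap F K c', ⟨c', rfl⟩⟩ : N)) ⟨?_, ?_⟩ _ _ (fun c => rfl)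
          · intro c1 c2 h
            exact (algebraMap F K).injective (congrArg Subtype.val h)
          · rintro ⟨_, c1, rfl⟩
            exact ⟨c1, rfl⟩
        have h2 : ∀ c' : F, g (a + algebraMap F K c') = π (ι ((c + c') ^ k)) := by
          intro c'
          have h3 : a + algebraMap F K c' = ((ι (c + c') + ι e * ⟨x, hxA⟩ : regularRing v) : K) := by
            rw [hce]
            change _ = algebraMap F K (c + c') + algebraMap F K e * x
            rw [map_add]
            ring
          rw [h3, hg, map_add, map_mul, hπx, mul_zero, add_zero, map_pow, map_pow]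
        rw [h1, Finset.sum_congr rfl (fun c' _ => h2 c'), ← map_sum, ← map_sum]
        have h4 : ∑ c' : F, (c + c') ^ k = 0 := by
          rw [← sum_pow_odd hk]
          exact Fintype.sum_equiv (Equiv.addLeft c) _ _ (fun _ => rfl)
        rw [h4, map_zero, map_zero]
    · -- translation by multiples of x
      let Φ : F →+ K := (AddMonoidHom.mulRight x).comp (algebraMap F K).toAddMonoidHom
      have hΦ : ∀ c, Φ c = algebraMap F K c * x := fun c => rfl
      let N : AddSubgroup K := Φ.range
      have hNfin : Finite N := Set.finite_range Φ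
      have : Fintype N := Fintype.ofFinite _
      have hmemN : ∀ b ∈ N, ∃ c, b = algebraMap F K c * x := by
        rintro b ⟨c, rfl⟩
        exact ⟨c, rfl⟩
      apply sum_invariant N
      · intro a ha b hb
        rw [hPdef, Set.Finite.mem_toFinset] at *
        obtain ⟨c, rfl⟩ := hmemN b hb
        apply positive_add σ S ha (mul_mem (const_mem_A v c) hxA)
        rw [ha.2.1, map_mul]
        refine lt_of_le_of_lt ?_ hgt
        have h1 : v (algebraMap F K c) ≤ 1 := const_mem v.valuationSubring c
        calc v (algebraMap F K c) * v x ≤ 1 * v x := by gcongr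
          _ = v x := one_mul _
      · intro a ha
        rw [hPdef, Set.Finite.mem_toFinset] at ha
        have h1 : ∑ b : N, g (a + (b : K)) = ∑ c' : F, g (a + algebraMap F K c' * x) := by
          symm
          refine Fintype.sum_bijective (fun c' => (⟨Φ c', ⟨c', rfl⟩⟩ : N)) ⟨?_, ?_⟩ _ _ (fun c => rfl)
          · intro c1 c2 h
            have h3 : algebraMap F K c1 * x = algebraMap F K c2 * x := congrArg Subtype.val h
            exact (algebraMap F K).injective (mul_right_cancel₀ hx0 h3)
          · rintro ⟨_, c1, rfl⟩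
            exact ⟨c1, rfl⟩
        have h2 : ∀ c' : F, g (a + algebraMap F K c' * x) = π ⟨a, ha.1⟩ ^ k := by
          intro c'
          have h3 : a + algebraMap F K c' * x = ((⟨a, ha.1⟩ + ι c' * ⟨x, hxA⟩ : regularRing v) : K) := rfl
          rw [h3, hg, map_add, map_mul, hπx, mul_zero, add_zero]
        rw [h1, Finset.sum_congr rfl (fun c' _ => h2 c'), Finset.sum_const, Finset.card_univ, nsmul_eq_mul,
          hcard, zero_mul]
  -- assemble
  obtain ⟨N, hN⟩ := zeta_eq_sum hK hv σ S k
  obtain ⟨c, hc0, hc⟩ := powerSum_zero hK σ S hS k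
  intro hzero
  have hmem : ∀ n, powerSum σ S k n ∈ regularRing v := by
    intro n
    rw [powerSum, finsum_mem_eq_finite_toFinset_sum _ (positive_finite hK hv σ S n)]
    refine sum_mem (fun a ha => ?_)
    rw [Set.Finite.mem_toFinset] at ha
    exact pow_mem ha.1 k
  have h1 : (ι c) ^ k + ∑ n ∈ Finset.range N, (⟨powerSum σ S k (n + 1), hmem _⟩ : regularRing v) = 0 := by
    apply Subtype.ext
    rw [AddMemClass.coe_add, AddSubmonoidClass.coe_finsetSum, ZeroMemClass.coe_zero, ← hzero, hN, hc]
    rfl
  have h2 := congrArg π h1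
  rw [map_add, map_sum, Finset.sum_eq_zero (fun n _ => key (n + 1) (by omega) _ rfl), add_zero, map_zero,
    map_pow] at h2
  have h3 : π (ι c) = 0 := by
    by_contra h
    exact pow_ne_zero k h h2
  have h4 : IsUnit (π (ι c)) := ((isUnit_iff_ne_zero.mpr hc0).map ι).map π
  rw [h3] at h4
  exact not_isUnit_zero h4

end Level

/-- Let `A` be the ring of elements of a global function field `K` (full constant field `F`, with `q`
elements) regular away from a place `v` of degree `d`. If `d = 1`, or if the elements of `A` of least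
positive degree are all of the form `c + e x` for one `x` (`c`, `e` constants), then for every
sign normalisation the Goss zeta value of `A` at `-k` is nonzero for each `k` not divisible by `q - 1`. -/
theorem result {F K : Type*} [Field F] [Fintype F] [Field K] [Algebra F K]
    (hK : IsFunctionFieldOver F K)
    (v : Valuation K (WithZero (Multiplicative ℤ))) (hv : Function.Surjective v)
    (d : ℕ) (hd : Nat.card (Res v) = Fintype.card F ^ d)
    (σ : SignFunction v) (S : Set (Res v)ˣ) (hS : IsRepresentatives F σ S)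
    (h1 : d = 1 ∨ ∃ x ∈ regularRing v, 1 < v x ∧
      ∀ a ∈ regularRing v, v a ≤ v x → ∃ c e : F, a = algebraMap F K c + algebraMap F K e * x)
    (k : ℕ) (hk : ¬ (Fintype.card F - 1) ∣ k) :
    (∀ n, (positive σ S n).Finite) ∧ (∃ N, ∀ n, N ≤ n → powerSum σ S k n = 0) ∧
      zetaValue σ S k ≠ 0 := by
  classical
  have hfin : Finite (Res v) := by
    apply Nat.finite_of_card_ne_zero
    rw [hd]
    exact pow_ne_zero _ Fintype.card_ne_zero
  refine ⟨positive_finite hK hv σ S, powerSum_eventually_zero hK hv σ S k, ?_⟩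
  rcases h1 with rfl | ⟨x, hxA, hx1, hx⟩
  swap
  · exact zeta_ne_zero_of_minimal hK hv σ S hS hxA hx1 hx hk
  by_cases hex : ∃ x ∈ regularRing v, 1 < v x
  · -- choose x of least pole order
    have hex2 : ∃ m : ℕ, ∃ x ∈ regularRing v, 1 < v x ∧ v x = WithZero.exp (m : ℤ) := by
      obtain ⟨x, hxA, hx1⟩ := hex
      have hx0 : x ≠ 0 := by
        rintro rfl
        rw [map_zero] at hx1
        exact absurd hx1 (not_lt.mpr zero_le)
      have hvx : v x ≠ 0 := (Valuation.ne_zero_iff _).mpr hx0
      refine ⟨(WithZero.log (v x)).toNat, x, hxA, hx1, ?_⟩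
      have h1 : 0 < WithZero.log (v x) := by
        rw [WithZero.lt_log_iff_exp_lt hvx, WithZero.exp_zero]
        exact hx1
      rw [Int.toNat_of_nonneg h1.le, WithZero.exp_log hvx]
    obtain ⟨x, hxA, hx1, hxm⟩ := Nat.find_spec hex2
    have hmin : ∀ a ∈ regularRing v, v a < v x → ∃ c : F, algebraMap F K c = a := by
      intro a ha hax
      apply const_of_regular hK v ha
      by_contra h
      rw [not_le] at h
      have ha0 : a ≠ 0 := by
        rintro rfl
        rw [map_zero] at h
        exact absurd h (not_lt.mpr zero_le)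
      have hva : v a ≠ 0 := (Valuation.ne_zero_iff _).mpr ha0
      have h2 : 0 < WithZero.log (v a) := by
        rw [WithZero.lt_log_iff_exp_lt hva, WithZero.exp_zero]
        exact h
      have h3 : v a = WithZero.exp (((WithZero.log (v a)).toNat : ℕ) : ℤ) := by
        rw [Int.toNat_of_nonneg h2.le, WithZero.exp_log hva]
      have h4 := Nat.find_min' hex2 ⟨a, ha, h, h3⟩
      rw [hxm, h3, WithZero.exp_lt_exp] at hax
      omega
    have hx0 : x ≠ 0 := by
      rintro rfl
      rw [map_zero] at hx1
      exact absurd hx1 (not_lt.mpr zero_le)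
    have hvx : v x ≠ 0 := (Valuation.ne_zero_iff _).mpr hx0
    apply zeta_ne_zero_of_minimal hK hv σ S hS hxA hx1 _ hk
    intro a ha hax
    -- the residue field is the constant field
    let ι : F →+* v.valuationSubring := (algebraMap F K).codRestrict v.valuationSubring.toSubring
      (fun c => const_mem v.valuationSubring c)
    have hsurj : Function.Surjective ((IsLocalRing.residue v.valuationSubring).comp ι) := by
      have hinj : Function.Injective ((IsLocalRing.residue v.valuationSubring).comp ι) := RingHom.injective _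
      have hcard : Nat.card F = Nat.card (Res v) := by
        rw [hd, pow_one, Nat.card_eq_fintype_card]
      exact ((Nat.bijective_iff_injective_and_card _).mpr ⟨hinj, hcard⟩).2
    have hax' : a / x ∈ v.valuationSubring := by
      change v (a / x) ≤ 1
      rw [map_div₀]
      exact (div_le_one₀ (zero_lt_iff.mpr hvx)).mpr hax
    obtain ⟨e, he⟩ := hsurj (IsLocalRing.residue v.valuationSubring ⟨a / x, hax'⟩)
    have h2 : v (a / x - algebraMap F K e) < 1 := by
      have h3 : a / x - algebraMap F K e ∈ v.valuationSubring := sub_mem hax' (const_mem _ e)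
      rw [← res_eq_zero_iff h3]
      have h4 : (⟨a / x - algebraMap F K e, h3⟩ : v.valuationSubring) = ⟨a / x, hax'⟩ - ι e := rfl
      rw [h4, map_sub, ← he]
      exact sub_self _
    have h3 : v (a - algebraMap F K e * x) < v x := by
      have h5 : a - algebraMap F K e * x = (a / x - algebraMap F K e) * x := by
        field_simp
      rw [h5, map_mul]
      calc v (a / x - algebraMap F K e) * v x < 1 * v x :=
            mul_lt_mul_of_pos_right h2 (zero_lt_iff.mpr hvx)
        _ = v x := one_mul _
    obtain ⟨c, hc⟩ := hmin _ (sub_mem ha (mul_mem (const_mem_A v e) hxA)) h3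
    exact ⟨c, e, by rw [hc]; ring⟩
  · push Not at hex
    obtain ⟨N, hN⟩ := zeta_eq_sum hK hv σ S k
    obtain ⟨c, hc0, hc⟩ := powerSum_zero hK σ S hS k
    have h2 : ∀ n, powerSum σ S k (n + 1) = 0 := by
      intro n
      have : positive σ S (n + 1) = ∅ := by
        rw [Set.eq_empty_iff_forall_notMem]
        rintro a ⟨h1, h2, _⟩
        have h3 := hex a h1
        rw [h2, ← WithZero.exp_zero, WithZero.exp_le_exp] at h3
        have h4 : n + 1 ≤ 0 := by exact_mod_cast h3
        omega
      rw [powerSum, this, finsum_mem_empty]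
    rw [hN, Finset.sum_eq_zero (fun n _ => h2 n), add_zero, hc]
    exact pow_ne_zero _ ((_root_.map_ne_zero _).mpr hc0)

end Pool.Agent.Results.MP_b811f7_nt.DegreeOne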